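import Pool.Agent.MP_cce4c9_lc.H32.Chev

/-! Base change of a field over an algebraically closed field of constants. -/

set_option autoImplicit false

open scoped TensorProduct

namespace Pool.Agent.MP_cce4c9_lc.H32

open Pool.Agent.MP_cce4c9_lc.H87 Pool.Agent.MP_cce4c9_lc.H7

namespace Bcd

variable {k K Ω : Type} [Field k] [Field K] [Algebra k K] [Field Ω] [Algebra k Ω]

/-- The valuation ring of a place as a subalgebra. -/
def sub (P : KP k Ω) : Subalgebra k Ω :=
  { P.O.toSubring with algebraMap_mem' := P.mem }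

/-- The residue map as an algebra homomorphism. -/
def res (P : KP k Ω) : sub P →ₐ[k] k :=
  { toFun := fun a => P.ρ ⟨a.1, a.2⟩
    map_one' := P.ρ.map_one
    map_mul' := fun a b => P.ρ.map_mul ⟨a.1, a.2⟩ ⟨b.1, b.2⟩
    map_zero' := P.ρ.map_zero
    map_add' := fun a b => P.ρ.map_add ⟨a.1, a.2⟩ ⟨b.1, b.2⟩
    commutes' := P.const }

/-- Reduction on the tensor product. -/
noncomputable def red (K : Type) [Field K] [Algebra k K] (P : KP k Ω) : sub P ⊗[k] K →ₐ[k] K :=
  Algebra.TensorProduct.lift ((Algebra.ofId k K).comp (res P)) (AlgHom.id k K)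
    fun _ _ => Commute.all _ _

/-- The inclusion of tensor products. -/
noncomputable def inc (K : Type) [Field K] [Algebra k K] (P : KP k Ω) :
    sub P ⊗[k] K →ₐ[k] Ω ⊗[k] K :=
  Algebra.TensorProduct.map (sub P).val (AlgHom.id k K)

lemma inc_inj (P : KP k Ω) : Function.Injective (inc K P) :=
  Module.Flat.rTensor_preserves_injective_linearMap (M := K) (sub P).val.toLinearMap
    Subtype.val_injective

lemma scale (P : KP k Ω) (x : Ω ⊗[k] K) (hx : x ≠ 0) :
    ∃ (a : Ω) (y : sub P ⊗[k] K), inc K P y = a • x ∧ red K P y ≠ 0 := by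
  classical
  let b := Module.Basis.ofVectorSpace k K
  let B := Algebra.TensorProduct.basis Ω b
  let c := B.repr x
  have hc : c.support.Nonempty := Finsupp.support_nonempty_iff.2 fun h =>
    hx (B.repr.injective (h.trans B.repr.map_zero.symm))
  obtain ⟨i₀, hi₀, hmax⟩ := c.support.exists_max_image (fun i => P.O.valuation (c i)) hc
  have h0 : c i₀ ≠ 0 := Finsupp.mem_support_iff.1 hi₀
  have hm : ∀ i, (c i₀)⁻¹ * c i ∈ sub P := fun i => by
    show (c i₀)⁻¹ * c i ∈ P.O
    by_cases hi : i ∈ c.support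
    · rw [← P.O.valuation_le_one_iff, map_mul, map_inv₀]
      have h1 : P.O.valuation (c i₀) ≠ 0 := by simpa using h0
      rw [inv_mul_le_iff₀ (zero_lt_iff.2 h1), mul_one]
      exact hmax i hi
    · rw [Finsupp.notMem_support_iff.1 hi, mul_zero]
      exact P.O.zero_mem
  refine ⟨(c i₀)⁻¹, ∑ i ∈ c.support, (⟨_, hm i⟩ : sub P) ⊗ₜ b i, ?_, ?_⟩
  · conv_rhs => rw [← B.linearCombination_repr x, Finsupp.linearCombination_apply, Finsupp.sum,
      Finset.smul_sum]
    rw [map_sum]
    refine Finset.sum_congr rfl fun i _ => ?_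
    rw [smul_smul, Algebra.TensorProduct.basis_repr_symm_apply']
    rfl
  · intro h
    rw [map_sum] at h
    have h1 : ∑ i ∈ c.support, res P ⟨_, hm i⟩ • b i = 0 := by
      rw [← h]
      refine Finset.sum_congr rfl fun i _ => ?_
      rw [red, Algebra.TensorProduct.lift_tmul, Algebra.smul_def]
      rfl
    have h2 := linearIndependent_iff'.1 b.linearIndependent _ _ h1 i₀ hi₀
    have h3 : (⟨_, hm i₀⟩ : sub P) = 1 := Subtype.ext (inv_mul_cancel₀ h0)
    rw [h3, map_one] at h2
    exact one_ne_zero h2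

lemma isDomain (P : KP k Ω) : IsDomain (Ω ⊗[k] K) := by
  have : Nontrivial (Ω ⊗[k] K) :=
    Algebra.TensorProduct.nontrivial_of_algebraMap_injective_of_isDomain k Ω K
      (algebraMap k Ω).injective (algebraMap k K).injective
  have : NoZeroDivisors (Ω ⊗[k] K) := ⟨fun {x y} h => by
    by_contra hn
    push Not at hn
    obtain ⟨a, x', ha, hx⟩ := scale P x hn.1
    obtain ⟨b, y', hb, hy⟩ := scale P y hn.2
    have h1 : x' * y' = 0 := inc_inj P (by
      rw [map_mul, ha, hb, map_zero, smul_mul_smul_comm, h, smul_zero])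
    have h2 := congrArg (red K P) h1
    rw [map_mul, map_zero] at h2
    exact mul_ne_zero hx hy h2⟩
  exact NoZeroDivisors.to_isDomain _

lemma mem_span {F : Type} [Field F] [Algebra K F] [Algebra Ω F] (m : Ω ⊗[k] K →+* F)
    (hm : ∀ (a : Ω) (h : K), m (a ⊗ₜ h) = a • algebraMap K F h) (x : Ω ⊗[k] K) :
    m x ∈ Submodule.span Ω (Set.range (algebraMap K F)) := by
  induction x using TensorProduct.induction_on with
  | zero => rw [map_zero]; exact Submodule.zero_mem _
  | tmul a h => rw [hm]; exact Submodule.smul_mem _ _ (Submodule.subset_span ⟨h, rfl⟩)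
  | add x y hx hy => rw [map_add]; exact Submodule.add_mem _ hx hy

lemma exists_bcd (P : KP k Ω) : Nonempty (BCD k K Ω) := by
  have := isDomain (K := K) P
  let F := FractionRing (Ω ⊗[k] K)
  let aK : Algebra K F := ((algebraMap (Ω ⊗[k] K) F).comp
    (Algebra.TensorProduct.includeRight : K →ₐ[k] Ω ⊗[k] K).toRingHom).toAlgebra
  have hK : ∀ h : K, algebraMap K F h = algebraMap (Ω ⊗[k] K) F (1 ⊗ₜ h) := fun _ => rfl
  have tK : IsScalarTower k K F := IsScalarTower.of_algebraMap_eq fun c => by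
    rw [IsScalarTower.algebraMap_apply k (Ω ⊗[k] K) F]
    exact congrArg (algebraMap (Ω ⊗[k] K) F)
      ((Algebra.TensorProduct.includeRight : K →ₐ[k] Ω ⊗[k] K).commutes c).symm
  have hm : ∀ (a : Ω) (h : K),
      algebraMap (Ω ⊗[k] K) F (a ⊗ₜ h) = a • algebraMap K F h := fun a h => by
    have e : a ⊗ₜ[k] h = a • ((1 : Ω) ⊗ₜ[k] h) := by
      rw [TensorProduct.smul_tmul', smul_eq_mul, mul_one]
    rw [hK, e]
    exact map_smul (IsScalarTower.toAlgHom Ω (Ω ⊗[k] K) F) a _
  refine ⟨{ F := F, li := fun ι v hv => ?_, gen := fun x => ?_ }⟩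
  · have h1 := Module.Flat.linearIndependent_one_tmul (S := Ω) hv
    exact h1.map' (IsScalarTower.toAlgHom Ω (Ω ⊗[k] K) F).toLinearMap
      (LinearMap.ker_eq_bot.2 (IsFractionRing.injective (Ω ⊗[k] K) F))
  · obtain ⟨a, b, hb, rfl⟩ := IsFractionRing.div_surjective (A := Ω ⊗[k] K) x
    have hb' : algebraMap (Ω ⊗[k] K) F b ≠ 0 :=
      IsFractionRing.to_map_ne_zero_of_mem_nonZeroDivisors hb
    exact ⟨_, mem_span _ hm a, _, mem_span _ hm b, hb', div_mul_cancel₀ _ hb'⟩

/-- The multiplication map into a base change. -/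
noncomputable def mul (B : BCD k K Ω) : Ω ⊗[k] K →ₐ[Ω] B.F :=
  Algebra.TensorProduct.lift (Algebra.ofId Ω B.F) (IsScalarTower.toAlgHom k K B.F)
    fun _ _ => Commute.all _ _

lemma mul_tmul (B : BCD k K Ω) (a : Ω) (h : K) :
    mul B (a ⊗ₜ h) = algebraMap Ω B.F a * algebraMap K B.F h := rfl

lemma mul_inj (B : BCD k K Ω) : Function.Injective (mul B) := by
  let b := Module.Basis.ofVectorSpace k K
  have h1 := B.li _ b b.linearIndependent
  have h2 : (fun i => algebraMap K B.F (b i)) =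
      (mul B).toLinearMap ∘ Algebra.TensorProduct.basis Ω b := by
    funext i
    simp [mul_tmul]
  rw [h2] at h1
  exact (LinearMap.injective_of_linearIndependent (Algebra.TensorProduct.basis Ω b).span_eq h1)

lemma span_le (B : BCD k K Ω) {a : B.F} (ha : a ∈ Submodule.span Ω (Set.range (algebraMap K B.F))) :
    ∃ x, mul B x = a := by
  have : Submodule.span Ω (Set.range (algebraMap K B.F)) ≤ LinearMap.range (mul B).toLinearMap :=
    Submodule.span_le.2 (by
      rintro _ ⟨h, rfl⟩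
      exact ⟨1 ⊗ₜ h, by simp [mul_tmul]⟩)
  exact this ha

lemma exists_act (B : BCD k K Ω) : ∃ act : (Ω ≃ₐ[k] Ω) →* SA Ω B.F,
    (∀ τ (h : K), (act τ).1 (algebraMap K B.F h) = algebraMap K B.F h) ∧
    ∀ τ (a : Ω), (act τ).1 (algebraMap Ω B.F a) = algebraMap Ω B.F (τ a) := by
  let : Algebra (Ω ⊗[k] K) B.F := (mul B).toRingHom.toAlgebra
  have hm : ∀ x, algebraMap (Ω ⊗[k] K) B.F x = mul B x := fun _ => rfl
  have : FaithfulSMul (Ω ⊗[k] K) B.F :=
    (faithfulSMul_iff_algebraMap_injective _ _).2 (mul_inj B)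
  have : IsFractionRing (Ω ⊗[k] K) B.F := IsFractionRing.of_field _ _ fun z => by
    obtain ⟨a, ha, b, hb, h0, h⟩ := B.gen z
    obtain ⟨x, rfl⟩ := span_le B ha
    obtain ⟨y, rfl⟩ := span_le B hb
    exact ⟨x, y, eq_div_of_mul_eq h0 h⟩
  let T : (Ω ≃ₐ[k] Ω) → B.F ≃+* B.F := fun τ => IsFractionRing.ringEquivOfRingEquiv
    (Algebra.TensorProduct.congr τ (AlgEquiv.refl : K ≃ₐ[k] K)).toRingEquiv
  have hT : ∀ τ (a : Ω) (h : K), T τ (algebraMap Ω B.F a * algebraMap K B.F h) =
      algebraMap Ω B.F (τ a) * algebraMap K B.F h := fun τ a h => by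
    rw [← mul_tmul, ← hm, IsFractionRing.ringEquivOfRingEquiv_algebraMap]
    rfl
  have hK : ∀ τ (h : K), T τ (algebraMap K B.F h) = algebraMap K B.F h := fun τ h => by
    simpa using hT τ 1 h
  have hΩ : ∀ τ (a : Ω), T τ (algebraMap Ω B.F a) = algebraMap Ω B.F (τ a) := fun τ a => by
    simpa using hT τ a 1
  have hext : ∀ f g : B.F ≃+* B.F, (∀ h : K, f (algebraMap K B.F h) = g (algebraMap K B.F h)) →
      (∀ a : Ω, f (algebraMap Ω B.F a) = g (algebraMap Ω B.F a)) → f = g := fun f g h1 h2 => by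
    have : f.toRingHom = g.toRingHom := IsFractionRing.ringHom_ext (A := Ω ⊗[k] K) fun x => by
      show f (mul B x) = g (mul B x)
      induction x using TensorProduct.induction_on with
      | zero => simp
      | tmul a h => rw [mul_tmul, map_mul, map_mul, h1, h2]
      | add x y hx hy => rw [map_add, map_add, map_add, hx, hy]
    exact RingEquiv.ext fun x => RingHom.congr_fun this x
  have hS : ∀ τ, T τ ∈ SA Ω B.F := fun τ x => by
    constructor
    · rintro ⟨a, ha⟩
      exact ⟨τ.symm a, (T τ).injective (by rw [hΩ, τ.apply_symm_apply, ha])⟩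
    · rintro ⟨a, rfl⟩
      exact ⟨τ a, (hΩ τ a).symm⟩
  refine ⟨MonoidHom.mk' (fun τ => ⟨T τ, hS τ⟩) fun σ τ => Subtype.ext (hext _ _ ?_ ?_), hK, hΩ⟩
  · intro h
    show T (σ * τ) _ = T σ (T τ _)
    rw [hK, hK, hK]
  · intro a
    show T (σ * τ) _ = T σ (T τ _)
    rw [hΩ, hΩ, hΩ]
    rfl

end Bcd

theorem bcd (hC : StmtCHEV) : StmtBCD := by
  intro k K Ω _ _ _ _ _ _
  obtain ⟨P, -⟩ := hC k Ω ((algebraMap k Ω).prod (RingHom.id k)).range (fun c => ⟨c, rfl⟩) (by
    rintro c ⟨a, ha⟩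
    have h1 : algebraMap k Ω a = 0 := congrArg Prod.fst ha
    have h2 : a = c := congrArg Prod.snd ha
    rw [← h2]
    exact (map_eq_zero _).1 h1)
  exact ⟨Bcd.exists_bcd P, Bcd.exists_act⟩

/-- The unconditional form. -/
theorem bcd' : StmtBCD := bcd chev

end Pool.Agent.MP_cce4c9_lc.H32
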