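import Pool.Agent.MP_cce4c9_lc.H87.SpecR

/-! The first system and its data are computed in polynomial time. -/

set_option autoImplicit false

open List Pool.Agent.Shared.H56 Pool.Agent.MP_cce4c9_lc.H87

namespace Pool.Agent.MP_cce4c9_lc.H32

namespace PT1

variable {α : Type} [N487b59b3 α]
variable {B : α → Ds} {a τ y z : α → El} {fl F b : α → List El} {c : α → Tab}
  {w : α → List Bool} {n o e J : α → ℕ} {ρ : α → ℕ × ℕ} {S : α → List (ℕ × ℕ)} {μ : α → List ℕ}
  {pat : α → Pat}

theorem dig_min (n J i : ℕ) : dig n J (min i (sz J + 1)) = dig n J i := by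
  rcases le_total i (sz J + 1) with h | h
  · rw [min_eq_left h]
  · rw [min_eq_right h]
    have key : ∀ k, sz J + 1 ≤ k → dig n J k = 0 := by
      intro k hk
      unfold dig
      rcases n with _ | _ | n
      · rw [zero_pow (by omega), Nat.div_zero]
      · exact Nat.mod_one _
      · rw [Nat.div_eq_of_lt, Nat.zero_mod]
        exact (lt_two_pow_sz J).trans_le ((Nat.pow_le_pow_right (by norm_num) (by omega)).trans
          (Nat.pow_le_pow_left (by omega) k))
    rw [key _ le_rfl, key _ h]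

/-- Digits at a position given in binary. -/
theorem pt_dig' (hn : PT n) (hJ : PT J) (ho : PT o) : PT fun x => dig (n x) (J x) (o x) :=
  (pt_dig hn hJ (ho.un_min (hJ.un_sz.un_add (PT.const (un 1))))).congr fun _ => dig_min _ _ _

@[fun_prop] theorem pt_ds (d m : ℕ) (hJ : PT J) : PT fun x => ds d m (J x) := by
  unfold ds
  exact (PT.map (f := fun x i => dig d (J x) i)
    (pt_dig' (PT.const d) (hJ.comp PT.id'.fst) PT.id'.snd) (PT.const _)).sum

@[fun_prop] theorem pt_tk (hB : PT B) (ha : PT a) : PT fun x => tk (B x) (a x) := by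
  unfold tk; fun_prop

@[fun_prop] theorem pt_fullL (hB : PT B) (hf : PT fl) : PT fun x => fullL (B x) (fl x) := by
  unfold fullL; fun_prop

@[fun_prop] theorem pt_derL (hB : PT B) (hF : PT F) : PT fun x => derL (B x) (F x) := by
  unfold derL; fun_prop

@[fun_prop] theorem pt_tr1 (hB : PT B) (hn : PT fun x => un (n x)) :
    PT fun x => tr1 (B x) (n x) :=
  (pt_tower hB (hn.replicate (PT.const [])) 1).fst

@[fun_prop] theorem pt_rt1 (hB : PT B) (hn : PT fun x => un (n x)) :
    PT fun x => rt1 (B x) (n x) :=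
  (pt_tower hB (hn.replicate (PT.const [])) 1).snd.getD (PT.const 0) (PT.const [])

theorem pt_tayE (hB : PT B) (hτ : PT τ) (hF : PT F) (hn : PT fun x => un (n x)) (hy : PT y)
    (hz : PT z) : PT fun x => tayE (B x) (τ x) (F x) (n x) (y x) (z x) :=
  pt_iterate_nrm (f := fun x η => mul (B x) (z x) (sub (B x) (τ x) (sub (B x) (sub (B x)
    (horner (B x) (F x) (add (B x) (y x) η)) (horner (B x) (F x) (y x)))
    (mul (B x) (horner (B x) (derL (B x) (F x)) (y x)) η)))) hB (by fun_prop) (by fun_prop) hn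
    fun _ _ => nrm_mul _ _ _

theorem pt_tcolA (d m : ℕ) (hB : PT B) (hτ : PT τ) (hF : PT F) (hn : PT fun x => un (n x))
    (hb : PT b) (ho : PT o) (he : PT e) (hJ : PT J) :
    PT fun x => tcolA (B x) (τ x) (F x) d m (n x) (b x) (o x) (e x) (J x) := by
  unfold tcolA
  refine pt_mul hB (by fun_prop) (pt_prodL hB (PT.map (f := fun x i => pw (B x) (add (B x)
    ((b x).getD (o x + i) []) (tayE (B x) (τ x) (F x) (n x) ((b x).getD (o x + i) [])
      ((b x).getD (o x + m + i) []))) (dig d (J x) i)) ?_ (PT.const _)))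
  have hB' : PT fun p : α × ℕ => B p.1 := hB.comp PT.id'.fst
  exact pt_pw hB' (pt_add hB' (by fun_prop) (pt_tayE hB' (hτ.comp PT.id'.fst) (hF.comp PT.id'.fst)
    (hn.comp PT.id'.fst) (by fun_prop) (by fun_prop)))
    (pt_dig' (PT.const d) (hJ.comp PT.id'.fst) PT.id'.snd)

@[fun_prop] theorem pt_TA (d m : ℕ) (hB : PT B) (hf : PT fl) (hw : PT w) (hb : PT b) (hρ : PT ρ)
    (he : PT e) (hJ : PT J) :
    PT fun x => TA (B x) (fl x) d m (w x).length (b x) (ρ x) (e x) (J x) := by
  unfold TA
  have hn : PT fun x => un ((w x).length * mm d m) := by fun_prop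
  have h1 := pt_tr1 hB hn
  exact pt_chunk hB (pt_tcolA d m h1 (pt_rt1 hB hn) (pt_fullL h1 hf) hn (by fun_prop)
    (by fun_prop) (by fun_prop) hJ) hρ.snd

@[fun_prop] theorem pt_cols (d m : ℕ) (hw : PT w) :
    PT fun x => cols d m ((w x).length * N0 d m) := by
  unfold cols; fun_prop

@[fun_prop] theorem pt_crA (d m : ℕ) (hB : PT B) (hf : PT fl) (hw : PT w) (hb : PT b) (hS : PT S)
    (he : PT e) (hJ : PT J) :
    PT fun x => crA (B x) (fl x) d m (w x).length (b x) (S x) (e x) (J x) := by
  unfold crA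
  refine pt_det hB (pt_mat (φ := fun x i j =>
    if (cols d m ((w x).length * N0 d m)).getD j (0, 0) = (e x, J x) then
      neg (B x) (TA (B x) (fl x) d m (w x).length (b x) ((S x).getD i (0, 0)) 0 0)
    else TA (B x) (fl x) d m (w x).length (b x) ((S x).getD i (0, 0))
      ((cols d m ((w x).length * N0 d m)).getD j (0, 0)).1
      ((cols d m ((w x).length * N0 d m)).getD j (0, 0)).2)
    (pt_cols d m hw).un_length (pt_cols d m hw).un_length ?_)
  fun_prop

@[fun_prop] theorem pt_vanA (d m : ℕ) (hB : PT B) (hf : PT fl) (hw : PT w) (hb : PT b) (hc : PT c)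
    (hρ : PT ρ) : PT fun x => vanA (B x) (fl x) d m (w x).length (b x) (c x) (ρ x) := by
  unfold vanA; fun_prop

@[fun_prop] theorem pt_rowsL (d m : ℕ) (hw : PT w) (hμ : PT μ) :
    PT fun x => rowsL d m (w x).length (μ x) := by
  unfold rowsL; fun_prop

@[fun_prop] theorem pt_selR (d m : ℕ) (hw : PT w) (hp : PT pat) :
    PT fun x => selR d m (w x).length (pat x) := by
  unfold selR; fun_prop

theorem pt_pats (d m : ℕ) (hw : PT w) : PT fun x => pats d m (w x).length := by
  unfold pats; fun_prop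

@[fun_prop] theorem pt_basA (d m : ℕ) (hB : PT B) (hf : PT fl) (hb : PT b) :
    PT fun x => basA (B x) (fl x) d m (b x) := by
  unfold basA; fun_prop

@[fun_prop] theorem pt_thA (G : ℕ) (hB : PT B) (hy : PT y) : PT fun x => thA (B x) G (y x) := by
  unfold thA; fun_prop

@[fun_prop] theorem pt_fixA (d m : ℕ) (hB : PT B) (hf : PT fl) (hμ : PT μ) (hb : PT b) :
    PT fun x => fixA (B x) (fl x) d m (μ x) (b x) := by
  unfold fixA; fun_prop

theorem pt_eqs1 (d m : ℕ) (hB : PT B) (hf : PT fl) (hw : PT w) (hp : PT pat) (hb : PT b) :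
    PT fun x => eqs1 (B x) (fl x) d m (w x).length (pat x) (b x) := by
  unfold eqs1
  have h : PT fun x => mat ((w x).length * N0 d m + 1) (d ^ m)
      (crA (B x) (fl x) d m (w x).length (b x) (selR d m (w x).length (pat x))) :=
    pt_mat (φ := fun x => crA (B x) (fl x) d m (w x).length (b x) (selR d m (w x).length (pat x)))
      (by fun_prop) (by fun_prop) (by fun_prop)
  refine ((pt_basA d m hB hf hb).append (pt_fixA d m hB hf hp.snd.fst hb)).append
    (PT.map (f := fun x => vanA (B x) (fl x) d m (w x).length (b x)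
      (mat ((w x).length * N0 d m + 1) (d ^ m)
        (crA (B x) (fl x) d m (w x).length (b x) (selR d m (w x).length (pat x))))) ?_
      (pt_rowsL d m hw hp.fst))
  exact pt_vanA d m (hB.comp PT.id'.fst) (hf.comp PT.id'.fst) (hw.comp PT.id'.fst)
    (hb.comp PT.id'.fst) (h.comp PT.id'.fst) PT.id'.snd

theorem pt_dM (d m : ℕ) (hw : PT w) : PT fun x => un (dM d m (w x).length) := by
  unfold dM dE; fun_prop

theorem pt_sys1 (d m : ℕ) (hB : PT B) (hf : PT fl) (hw : PT w) (hp : PT pat) :
    PT fun x => sys1 (B x) (fl x) d m (w x).length (pat x) := by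
  unfold sys1
  have hM := pt_dM d m hw
  have hT := pt_tower hB (hM.replicate (PT.const ([] : El))) (nV d m)
  refine PT.map (f := fun x a => (range (dM d m (w x).length ^ nV d m)).map (chunk (B x) a)) ?_
    (pt_eqs1 d m hT.fst hf hw hp hT.snd)
  exact PT.map (f := fun (p : α × El) => chunk (B p.1) p.2) (by fun_prop)
    ((pt_un_pow hM (nV d m)).range.comp PT.id'.fst)

theorem pt_disA (d m : ℕ) (hB : PT B) (hμ : PT μ) (hb : PT b) :
    PT fun x => disA (B x) d m (μ x) (b x) := by
  unfold disA; fun_prop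

theorem pt_datC (d m : ℕ) (hB : PT B) (hf : PT fl) (hw : PT w) (hp : PT pat) (hb : PT b) :
    PT fun x => datC (B x) (fl x) d m (w x).length (pat x) (b x) :=
  pt_mat (φ := fun x e J => mul (B x)
      (crA (B x) (fl x) d m (w x).length (b x) (selR d m (w x).length (pat x)) e J)
      (qinv (B x) (crA (B x) (fl x) d m (w x).length (b x) (selR d m (w x).length (pat x)) 0 0)))
    (by fun_prop) (by fun_prop) (by fun_prop)

theorem pt_dat1 (d m : ℕ) (hB : PT B) (hf : PT fl) (hw : PT w) (hp : PT pat) (hb : PT b) :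
    PT fun x => dat1 (fl x) d m (w x).length (B x) (pat x) (b x) := by
  unfold dat1
  have h := pt_datC d m hB hf hw hp hb
  refine (pt_mul hB (pt_prodL hB (PT.map (f := fun x => eqz (B x)) (by fun_prop)
    (((pt_basA d m hB hf hb).append ((pt_sub hB (pt_ent h (PT.const 0) (PT.const 0))
      (pt_cst hB (PT.const 1))).cons (PT.const []))).append
    (PT.map (f := fun x => vanA (B x) (fl x) d m (w x).length (b x)
      (datC (B x) (fl x) d m (w x).length (pat x) (b x))) ?_ (pt_rowsL d m hw hp.fst)))))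
    (pt_disA d m hB hp.fst hb)).prodMk h
  exact pt_vanA d m (hB.comp PT.id'.fst) (hf.comp PT.id'.fst) (hw.comp PT.id'.fst)
    (hb.comp PT.id'.fst) (h.comp PT.id'.fst) PT.id'.snd

end PT1

theorem pt1 : StmtPT1 := fun d m =>
  ⟨PT1.pt_sys1 d m PT.id'.snd.fst PT.id'.snd.snd.fst PT.id'.fst PT.id'.snd.snd.snd,
    PT1.pt_dat1 d m PT.id'.snd.snd.fst PT.id'.snd.fst PT.id'.fst PT.id'.snd.snd.snd.fst
      PT.id'.snd.snd.snd.snd,
    PT1.pt_pats d m PT.id', PT1.pt_dM d m PT.id'⟩

end Pool.Agent.MP_cce4c9_lc.H32
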